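import Pool.Agent.Y160.T4.Main

/-!
# The Tate conjecture for every prime for `100%` of the surfaces
# `w ^ q = (x ^ M - ρ) u(x ^ M) + (β + c t ^ (p ^ d)) ^ q`, simultaneously for all `d` and `M`

Let `p` be a prime, `q` a power of `p`, `n ≥ 2` with `n + 1` prime to `p`, and `R` an odd integer prime to
`p`. For a monic polynomial `u` of degree `n` with integer coefficients and integers `ρ`, `β`, `c` let
`X_{d,M}` be the surface

  `w ^ q = (x ^ M - ρ) u(x ^ M) + (β + c t ^ (p ^ d)) ^ q`,  `d ≥ 1`, `M` a divisor of a power of `R`,

and `J` the Jacobian of its generic fibre over the line with coordinate `t`; its dimension is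
`(q - 1) ((n + 1) M - 1) / 2`. Let `h = (x - ρ) u + β ^ q`.

Theorem. Let `k` be a number field which contains the `q`-th roots of unity. For `100%` of
`(u, ρ, β, c)` (the `n + 3` integers are in the box `|v_i| ≤ H`, and `H` tends to infinity) there is a
prime number `P`, prime to `q (n + 1) R c`, such that `k` is a subfield of the field of the `P`-adic
numbers, `h` has a zero in the field of the `P`-adic numbers, and such that for ALL `d ≥ 1` and ALL `M`
which divide a power of `R`
1. `x ^ M - ρ` and `u(x ^ M)` are irreducible modulo `P`, and `(x ^ M - ρ) u(x ^ M)` and `h(x ^ M)` are
separable modulo `P`;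
2. over EVERY subfield `E` of the field of the `P`-adic numbers which contains the `q`-th roots of
unity, a `p`-th root of `-1` and a zero of `h`: the Tate conjecture at the prime `p` holds for
`X_{d,M}`, the `p`-primary part of the Tate-Shafarevich group of `J` over `E(t)` is zero, and
`J(E(t))` has a basis at `p` with `q - 1` elements;
3. over the field `F` with `P` elements: the `p`-primary part of the Tate-Shafarevich group of the
Jacobian of the reduction over `F(t)` is zero, and its group of points over `F(t)` has a basis at `p`
with the same number `q - 1` of elements.

Consequence. Let `k₀` be any number field. Then for `100%` of `(u, ρ, β, c)` the Tate conjecture for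
divisors holds over `k₀` for all surfaces `X_{d,M}` and ALL primes `ℓ`. Indeed, we take `k` to be `k₀`
with the `q`-th roots of unity and a `p`-th root of `-1`, and `E = k(γ)` for a zero `γ` of `h`; the
conjecture for `E` implies the one for `k₀`. The affine surface is smooth over the integers
at the place given by `P` (by the separability), its fibres over the affine line are irreducible,
and it is a quasi-smooth hypersurface at infinity in a weighted projective space whose weights are
prime to `P`, so a smooth projective model of `X_{d,M}` has good reduction, a model of the surface
over `F`. By 3 and the theorems of Artin, Tate and Milne, the Tate conjecture holds over `F` for every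
prime `ℓ`, so the dimension of the space of the Frobenius invariants in the cohomology, orthogonal to
the fibre components and the curves at infinity, is the rank `q - 1`, which is the rank of
`J(E(t))`; the space of the classes invariant under the Galois group of `E` is not larger.

The rank is unbounded when `q` varies, the polynomial `u` is arbitrary, and the geometric genus of
`X_{d,M}` is unbounded for each choice of the parameters.

Method: by a theorem on divisors of functions on a branch curve (a tower of Kummer extensions of a
rational function field) and norms, the statements follow for a field `E` such that `h = (x - γ) v`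
over `E`, the polynomials `x ^ M - ρ`, `u(x ^ M)`, `x ^ M - γ`, `v(x ^ M)` are irreducible, and `u(ρ)` and
`γ - ρ` are not `p`-th powers. For a positive proportion of `(u, ρ, β)` modulo `P`, with a lower bound
which does not depend on `P`, this is true for all `M` at once: with `κ = β ^ q / (ρ - γ)` we have
`u = s (x - γ) + κ` and `v = s (x - ρ) + κ` for a monic `s`, so that `u` and `v` are on the same line, and
`γ - ρ` and `u(ρ) = s(ρ) (ρ - γ) + κ` are linear in `γ`. Irreducible polynomials have positive density, so by
the inequality of Cauchy and Schwarz there are many pairs of them on the same line, and by Weil's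
bound for character sums a fixed proportion of these pairs has the right symbols. So `100%` of the
parameters are good for some `P`.
-/

set_option autoImplicit false

namespace Pool.Agent.Results.MP_89bcae_ag.AlmostAllLinearFactor

open Pool.Agent.Y160.SL Filter Topology

theorem result {p s n R : ℕ} (hp : p.Prime) (hn : 2 ≤ n) (hcop : p.Coprime (n + 1)) (hR : Odd R)
    (hpR : p.Coprime R) (k : Type) [Field k] [NumberField k] {ζ : k}
    (hζ : IsPrimitiveRoot ζ (p ^ (s + 1))) :
    Tendsto (fun H : ℕ => (({v : Fin (n + 3) → ℤ | (∀ i, |v i| ≤ (H : ℤ)) ∧
      ¬ LinWorks p (p ^ (s + 1)) n R k v}.ncard : ℕ) : ℝ) /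
        (2 * (H : ℝ) + 1) ^ (n + 3)) atTop (𝓝 0) :=
  Pool.Agent.Y160.T4.every hp hn hcop hR hpR k hζ

end Pool.Agent.Results.MP_89bcae_ag.AlmostAllLinearFactor
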