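import Pool.Agent.Y160.T2.Every

/-!
# The Tate conjecture for every prime for `100%` of the surfaces
# `w ^ q = (x ^ M + τ) ^ m - ρ ^ m + (β + c t ^ (p ^ d)) ^ q`, simultaneously for all `M = N ^ e` and `d`

Let `p` be a prime, `q` a power of `p`, `m ≥ 1` prime to `p`, `N ≠ p` an odd prime, and let `k` be a number
field which contains the roots of unity of the orders `q` and `m`. For integers `τ`, `ρ`, `β`, `c` let
`X_{d,e}` be the surface

  `w ^ q = (x ^ M + τ) ^ m - ρ ^ m + (β + c t ^ (p ^ d)) ^ q`,  `M = N ^ e`,  `d ≥ 1`,  `e ≥ 0`,

and `J` the Jacobian of its generic fibre over the line with coordinate `t`; its dimension is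
`(q - 1) (m M - 1) / 2`.

Theorem. For `100%` of the quadruples of integers `(τ, ρ, β, c)` (ordered by the maximum of the absolute
values) there are an extension `k' = k(γ)` of `k`, `γ ^ m = ρ ^ m - β ^ q`, whose degree is prime to `p`,
and a prime number `P` such that `k'` is a subfield of the field of the `P`-adic numbers, such that
for ALL `d ≥ 1` and `e ≥ 0`
1. over `k'`: the Tate conjecture at the prime `p` holds for `X_{d,e}`, the `p`-primary part of the
Tate-Shafarevich group of `J` over `k'(t)` is zero, and `J(k'(t))` has a basis at `p` with
`(m - 1) (q - 1)` elements;
2. over the field `F` with `P` elements: the reduction of `X_{d,e}` modulo `P` is a surface of the same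
kind, the `p`-primary part of the Tate-Shafarevich group of its Jacobian over `F(t)` is zero, and the
Jacobian has a basis at `p` with the same number `(m - 1) (q - 1)` of elements.

Consequence. Let `k₀` be any number field. Then for `100%` of the quadruples the Tate conjecture for
divisors holds over `k₀` for all surfaces `X_{d,e}` and ALL primes `ℓ`. Indeed, we take `k` to be `k₀` with
the roots of unity of order `q m`; the conjecture for `k'` implies the one for `k₀`. The affine surface
is smooth, its fibres over the affine line are irreducible, and it is a quasi-smooth hypersurface at
infinity in a weighted projective space whose weights are prime to `P`, so a smooth projective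
model of `X_{d,e}` has good reduction, a model of the surface over `F`. By 2 and the theorems of Artin,
Tate and Milne, the Tate conjecture holds over `F` for every prime, so the dimension of the space of the
Frobenius invariants in the cohomology, orthogonal to the fibre components and the curves at infinity,
is the rank of the Jacobian over `F(t)`, which is the rank of `J(k'(t))`; the space of the classes
invariant under the Galois group of `k'` is not larger.

The surfaces are of general type for large `d` or `e`, the geometric genus is unbounded for each
quadruple, and the fibrations are not isotrivial for `e ≥ 1`, `m ≥ 2` and `τ ≠ 0`.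

Method: a theorem on divisors of functions on the branch curve (a tower of Kummer extensions)
reduces the statement to conditions on `p`-th and `N`-th power residues modulo `P`, which do not depend
on `d` and `e`. By character sums they hold for a positive proportion of the quadruples modulo `P`, with
a lower bound which is the same for infinitely many `P`. So `100%` of the quadruples satisfy them for some `P`.
-/

set_option autoImplicit false

namespace Pool.Agent.Results.MP_89bcae_ag.DensityOneEveryPrime

open Pool.Agent.Y160.SL Filter Topology

theorem result {p s m N : ℕ} (hp : p.Prime) (hm : 0 < m) (hcop : p.Coprime m) (hN : N.Prime)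
    (hN2 : N ≠ 2) (hNp : N ≠ p) (k : Type) [Field k] [NumberField k] {ζ z : k}
    (hζ : IsPrimitiveRoot ζ (p ^ (s + 1))) (hz : IsPrimitiveRoot z m) :
    Tendsto (fun H : ℕ => (({v : Fin 4 → ℤ | (∀ i, |v i| ≤ (H : ℤ)) ∧
      ¬ Works p (p ^ (s + 1)) m N k (v 0) (v 1) (v 2) (v 3)}.ncard : ℕ) : ℝ) /
        (2 * (H : ℝ) + 1) ^ 4) atTop (𝓝 0) :=
  Pool.Agent.Y160.T2.every hp hm hcop hN hN2 hNp k hζ hz

end Pool.Agent.Results.MP_89bcae_ag.DensityOneEveryPrime
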