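import Pool.Agent.Y709.IrrS.Spec
import Pool.Agent.Y709.Lay.SpecC
import Pool.Agent.Y709.Lay.Root

/-!
Surfaces `y ^ (q - 1) = D B ∏ (x - β_i) ^ (m_i)` over the function field of a variety `Y` of positive
dimension over a finite field `k ⊇ 𝔽_q`, for sections `β_i` of any degree with simple collisions: for `D`
outside of a set of density zero there is a closed point `c` of `Y` at which a given polynomial `g` has a
root such that the L-functions of the specialisation at `c` do not vanish at `T = 1 / #k(c)`, over all Galois
coverings with a `p`-group.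
-/

set_option autoImplicit false

open Polynomial

namespace Pool.Agent.Results.MP_89bcae_ag.DensityOneSurfaces

section generic

/-- The closed points of the affine line over the field `F`: monic irreducible polynomials. -/
abbrev ClosedPt (F : Type) [Field F] : Type := {P : F[X] // P.Monic ∧ Irreducible P}

variable {F : Type} [Field F]

/-- The degree of a closed point of the affine line over `F`. -/
noncomputable def ptDegree (P : ClosedPt F) : ℕ := P.1.natDegree

/-- The polynomial `c ∏ (x - b_i) ^ (m_i)` over `F`. -/
noncomputable def fibre {n : ℕ} (c : F) (b : Fin n → F) (m : Fin n → ℕ) : F[X] :=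
  C c * ∏ i, (X - C (b i)) ^ m i

/-- The norm to `κ` of the value of the polynomial `g` over `F` at the closed point `Q` of the affine
line over the extension `F` of `κ`. -/
noncomputable def normValue {κ : Type} [Field κ] [Algebra κ F] (g : F[X]) (Q : ClosedPt F) : κ :=
  Algebra.norm κ (AdjoinRoot.mk Q.1 g)

/-- The Euler product: its coefficient of index `n` is that of the product of the factors of degree
at most `n`. -/
noncomputable def eulerProduct {ι : Type} (d : ι → ℕ) (f : ι → PowerSeries ℂ) : PowerSeries ℂ :=
  PowerSeries.mk fun n => PowerSeries.coeff n (∏ᶠ (i : ι) (_ : d i ≤ n), f i)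

end generic

section points

variable {κ : Type} [Field κ] {O : Type} [CommRing O] [Algebra κ[X] O]

/-- The residue field of a closed point of `Spec O`, for an algebra `O` over `κ[t]`. -/
def Res (𝔪 : MaximalSpectrum O) : Type := O ⧸ 𝔪.asIdeal

attribute [local instance] MaximalSpectrum.isMaximal in
noncomputable instance resField (𝔪 : MaximalSpectrum O) : Field (Res 𝔪) :=
  Ideal.Quotient.field 𝔪.asIdeal

/-- The value at `𝔪` of a polynomial in `t`. -/
noncomputable def value (𝔪 : MaximalSpectrum O) : κ[X] →+* Res 𝔪 :=
  (Ideal.Quotient.mk 𝔪.asIdeal).comp (algebraMap κ[X] O)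

noncomputable instance resAlgebra (𝔪 : MaximalSpectrum O) : Algebra κ (Res 𝔪) :=
  ((value 𝔪).comp C).toAlgebra

/-- The closed points of the product of `Spec O` and the `x`-line: a closed point of `Spec O` and a
closed point of the `x`-line over its residue field. -/
structure SurfacePt (O : Type) [CommRing O] : Type where
  place : MaximalSpectrum O
  point : ClosedPt (Res place)

variable (κ) in
/-- The degree of a closed point over `κ`. -/
noncomputable def SurfacePt.deg (z : SurfacePt O) : ℕ :=
  Module.finrank κ (Res z.place) * ptDegree z.point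

/-- A finite group `G` acts on the ring `O ⊇ κ[t]` faithfully and with the ring of invariants `κ[t]`, so
that `Spec O` is a Galois covering of the line with the group `G`, the group is a `p`-group, and the
covering is unramified at the points where `E(t)` is not zero: the inertia groups are trivial. -/
structure IsLayer (p : ℕ) (E : κ[X]) (G O : Type) [Group G] [Finite G] [CommRing O]
    [Algebra κ[X] O] [MulSemiringAction G O] : Prop where
  galois : IsGaloisGroup G κ[X] O
  injective : Function.Injective (algebraMap κ[X] O)
  pgroup : IsPGroup p G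
  unramified : ∀ 𝔪 : MaximalSpectrum O, algebraMap κ[X] O E ∉ 𝔪.asIdeal →
    𝔪.asIdeal.inertia G = ⊥

end points

section base

variable {k : Type} [Field k] {A : Type} [CommRing A] [Algebra k A]

/-- The residue field of a closed point of `Y = Spec A`. -/
def FieldAt (c : MaximalSpectrum A) : Type := A ⧸ c.asIdeal

attribute [local instance] MaximalSpectrum.isMaximal in
noncomputable instance fieldAtField (c : MaximalSpectrum A) : Field (FieldAt c) :=
  Ideal.Quotient.field c.asIdeal

instance fieldAtAlgebra (c : MaximalSpectrum A) : Algebra k (FieldAt c) :=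
  inferInstanceAs (Algebra k (A ⧸ c.asIdeal))

/-- The value of a function on `Y` at the closed point `c`. -/
def evalAt (c : MaximalSpectrum A) : A →+* FieldAt c := Ideal.Quotient.mk c.asIdeal

end base

/-- The data `B`, `β_i`, `m_i` of a pencil `y ^ (q - 1) = B ∏ (x - β_i) ^ (m_i)` with `r + 1` sections
`β_i`, where `B` and the `β_i` are polynomials in `t` over the ring `A`. -/
structure Pencil (A : Type) [CommRing A] (r : ℕ) : Type where
  coef : A[X]
  root : Fin (r + 1) → A[X]
  mult : Fin (r + 1) → ℕ

section pencil

/-- The specialisation of a pencil at a homomorphism `c`. -/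
noncomputable def Pencil.at {A : Type} [CommRing A] {κ : Type} [Field κ] {r : ℕ} (S : Pencil A r)
    (c : A →+* κ) : Pencil κ r :=
  ⟨S.coef.map c, fun i => (S.root i).map c, S.mult⟩

variable {A : Type} [CommRing A]

/-- For a domain `A`: the polynomial `h` over `A` has no multiple zeros over the algebraic closure of the
field of fractions, that is, `u h + v h' = c` for some `u`, `v` and a constant `c ≠ 0`. -/
def NoMultipleZero (h : A[X]) : Prop :=
  ∃ c : A, c ≠ 0 ∧ ∃ u v : A[X], u * h + v * derivative h = C c

variable {r : ℕ} (S : Pencil A r)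

/-- The degree `n` of the pencil in `x`: the sum of the multiplicities. -/
def Pencil.degX : ℕ := ∑ i, S.mult i

/-- The product of the differences `β_j - β_i` over `i < j`. -/
noncomputable def Pencil.differences : A[X] := ∏ i, ∏ j ∈ Finset.Ioi i, (S.root j - S.root i)

/-- The polynomial `B ∏ (β_j - β_i)`, the product over `i < j`. -/
noncomputable def Pencil.disc : A[X] := S.coef * S.differences

/-- The pencil has simple collisions, and its sections have the degree `d` in `t`: the differences of the
sections `β_i` have exactly the degree `d ≥ 1`, and their product has no multiple zeros. The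
multiplicities `m_i` are positive, `B` is not zero and has no zeros of a multiplicity above `b`: it
divides `c E ^ b` for a polynomial `E` without multiple zeros and a constant `c ≠ 0`. -/
structure Pencil.Simple (d b : ℕ) : Prop where
  deg_pos : 0 < d
  root_deg : ∀ i, (S.root i).natDegree ≤ d
  diff_deg : ∀ i j, i ≠ j → (S.root i - S.root j).natDegree = d
  diff_sep : NoMultipleZero S.differences
  mult_pos : ∀ i, 0 < S.mult i
  coef_ne : S.coef ≠ 0
  coef_mult : ∃ (E : A[X]) (c : A), NoMultipleZero E ∧ c ≠ 0 ∧ S.coef ∣ C c * E ^ b

end pencil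

section special

variable {κ : Type} [Field κ] {r : ℕ} (S : Pencil κ r)

/-- The norm to `κ` of the value of `D(t) B(t) ∏ (x - β_i(t)) ^ (m_i)` at a closed point. -/
noncomputable def Pencil.norm {O : Type} [CommRing O] [Algebra κ[X] O] (D : κ[X])
    (z : SurfacePt O) : κ :=
  normValue (fibre (value z.place (D * S.coef)) (fun i => value z.place (S.root i)) S.mult) z.point

/-- The `L`-function in the variable `T = (#κ) ^ (-s)` of the `χ`-part of the Jacobian of the curve
`y ^ (q - 1) = D(t) B(t) ∏ (x - β_i(t)) ^ (m_i)` over the covering `Spec O` of the `t`-line over `κ`: the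
product over the closed points `z` of `Spec O × 𝔸¹` of the factors `1 - χ(N z) T ^ (deg z)`, where `N z` is
the norm to `κ` of the value of `D(t) B(t) ∏ (x - β_i(t)) ^ (m_i)` at `z`, and `χ(0) = 0`. -/
noncomputable def Pencil.Lfun (O : Type) [CommRing O] [Algebra κ[X] O] (χ : MulChar κ ℂ)
    (D : κ[X]) : PowerSeries ℂ :=
  eulerProduct (fun z : SurfacePt O => z.deg κ)
    (fun z => 1 - PowerSeries.C (χ (S.norm D z)) * PowerSeries.X ^ z.deg κ)

/-- The power series `L` in `T` is the product of a polynomial and of `1 - Q T`: it vanishes at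
`T = 1 / Q`. -/
def Vanishes (Q : ℕ) (L : PowerSeries ℂ) : Prop :=
  ∃ G : ℂ[X], L = (((1 - C (Q : ℂ) * X) * G : ℂ[X]) : PowerSeries ℂ)

/-- The polynomial `D` has exact degree `N`, it is squarefree and prime to `B ∏ (β_j - β_i)`, and over all
Galois coverings with a `p`-group that are unramified outside of the zeros of `D B` (and `∞`) none of the
`L`-functions of the characters `χ` of exact order `q - 1` vanishes at `T = 1 / #κ`. -/
structure Pencil.Settled (p q N : ℕ) (D : κ[X]) : Prop where
  deg : D.natDegree = N
  squarefree : Squarefree D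
  coprime : IsCoprime D S.disc
  nonvanishing : ∀ (G O : Type) [Group G] [Finite G] [CommRing O] [Algebra κ[X] O]
    [MulSemiringAction G O], IsLayer p (D * S.coef) G O →
      ∀ χ : MulChar κ ℂ, orderOf χ = q - 1 → ¬ Vanishes (Nat.card κ) (S.Lfun O χ D)

theorem Lfun_eq (O : Type) [CommRing O] [Algebra κ[X] O] (χ : MulChar κ ℂ) (D : κ[X]) :
    S.Lfun O χ D = Pool.Agent.Y709.Lay.LO O χ (D * S.coef) S.root S.mult := by
  unfold Pencil.Lfun Pool.Agent.Y709.Lay.LO eulerProduct Pool.Agent.W343.BSD.eulerProd
  ext n
  rw [PowerSeries.coeff_mk, PowerSeries.coeff_mk]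
  congr 1
  let E : (Σ 𝔪 : MaximalSpectrum O, Pool.Agent.W313.Hyp.MI (Pool.Agent.Y709.Lay.RO κ 𝔪)) ≃
      SurfacePt O :=
    { toFun := fun z => ⟨z.1, z.2⟩
      invFun := fun z => ⟨z.place, z.point⟩
      left_inv := fun _ => rfl
      right_inv := fun _ => rfl }
  exact (finprod_comp_equiv E
    (f := fun z : SurfacePt O => ∏ᶠ (_ : z.deg κ ≤ n),
      (1 - PowerSeries.C (χ (S.norm D z)) * PowerSeries.X ^ z.deg κ : PowerSeries ℂ))).symm

/-- the polynomials that are not settled -/
theorem ncard_not_settled {κ : Type} [Field κ] [Finite κ] {p : ℕ} [Fact p.Prime] [CharP κ p]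
    {a s q : ℕ} (ha : 0 < a) (hs : 0 < s) (hq : q = p ^ a) (hk : Nat.card κ = q ^ s) {r : ℕ}
    (S : Pencil κ r) {d b : ℕ} (hsimple : Pool.Agent.Y709.Irr.Simple S.root d)
    (hmult : ∀ i, 0 < S.mult i) (hcoef : S.coef ≠ 0)
    (hb : ∀ P : κ[X], Irreducible P → ¬ P ^ (b + 1) ∣ S.coef) (hchar : S.degX < p)
    (hdeg : r * S.degX ≤ q - 1) (hnb : S.degX + b + 3 * r + 4 ≤ q) (hr : 4 * (r + 1) ^ 2 ≤ q)
    {f : ℕ} (hf : f = S.coef.natDegree + d * S.degX) {δ : ℕ}
    (hδ : S.disc.natDegree ≤ δ) (hD0 : S.disc ≠ 0) (hbig : q * (δ + 3) ≤ Nat.card κ) {M ρ N : ℕ}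
    (hM : 8 * (r + 1) ^ 2 * (f + 1) ≤ M) (hρ : 2 * r < ρ) (hρq : ρ < q - 1)
    (hN : N + f = (q - 1) * M + ρ) :
    q * {D : κ[X] | D.natDegree ≤ N ∧ ¬ S.Settled p q N D}.ncard ≤
      3 * Nat.card κ ^ (N + 1) := by
  have hFt : Fintype κ := Fintype.ofFinite κ
  have h1 := Pool.Agent.Y709.IrrS.countXS (k := κ) (p := p) hq ha hs
    (by rw [← Nat.card_eq_fintype_card, hk]) S.coef hcoef b hb hsimple hmult hchar hdeg hnb hr f ρ M
    N 1 hf (one_dvd _) (by omega) (by omega) hM hN
  set V := {D : κ[X] | D.natDegree ≤ N ∧
    Pool.Agent.Y709.Lay.VanX p (q - 1) 1 (D * S.coef) S.root S.mult} with hV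
  have hsub : {D : κ[X] | D.natDegree ≤ N ∧ ¬ S.Settled p q N D} ⊆
      (({D : κ[X] | D.natDegree ≤ N ∧ D.natDegree ≠ N} ∪
        {D : κ[X] | D.natDegree ≤ N ∧ ¬ Squarefree D}) ∪
        {D : κ[X] | D.natDegree ≤ N ∧ ¬ IsCoprime D S.disc}) ∪ V := by
    rintro D ⟨hD, hns⟩
    by_cases h2 : D.natDegree = N
    · by_cases h3 : Squarefree D
      · by_cases h4 : IsCoprime D S.disc
        · right
          by_contra h5
          apply hns
          refine ⟨h2, h3, h4, ?_⟩
          intro G O i1 i2 i3 i4 i5 hL χ hχ h6
          obtain ⟨H, hH⟩ := h6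
          apply h5
          have i6 := hL.galois
          have i7 : FaithfulSMul κ[X] O :=
            (faithfulSMul_iff_algebraMap_injective _ _).2 hL.injective
          refine ⟨hD, G, O, i1, i2, i3, i4, i5, i6, i7, hL.pgroup, ?_, χ, hχ, 1, one_pow 1, H, ?_⟩
          · intro 𝔪 h𝔪
            apply hL.unramified
            intro h0
            exact h𝔪 ((Pool.Agent.Y709.Lay.vO_eq_zero κ).2 h0)
          · rw [← Lfun_eq, hH, mul_one]
        · exact Or.inl (Or.inr ⟨hD, h4⟩)
      · exact Or.inl (Or.inl (Or.inr ⟨hD, h3⟩))
    · exact Or.inl (Or.inl (Or.inl ⟨hD, h2⟩))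
  have hVf : V.Finite := Pool.Agent.Y709.Sp.finite_sub N
  have h2 := Pool.Agent.Y709.Sp.ncard_drop (k := κ) N
  have h3 := Pool.Agent.Y709.Sp.ncard_sq (k := κ) N
  have h4 := Pool.Agent.Y709.Sp.ncard_cop hD0 hδ N
  have h5 : {D : κ[X] | D.natDegree ≤ N ∧ ¬ S.Settled p q N D}.ncard ≤
      (δ + 3) * Nat.card κ ^ N + V.ncard := by
    refine (Set.ncard_le_ncard hsub ((((Pool.Agent.Y709.Sp.finite_sub N).union
      (Pool.Agent.Y709.Sp.finite_sub N)).union (Pool.Agent.Y709.Sp.finite_sub N)).union
        hVf)).trans ?_
    refine (Set.ncard_union_le _ _).trans ?_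
    refine (Nat.add_le_add_right ((Set.ncard_union_le _ _).trans
      (Nat.add_le_add_right (Set.ncard_union_le _ _) _)) _).trans ?_
    have h6 : (δ + 3) * Nat.card κ ^ N = Nat.card κ ^ N + 2 * Nat.card κ ^ N +
      δ * Nat.card κ ^ N := by ring
    rw [h6]
    exact Nat.add_le_add_right (Nat.add_le_add (Nat.add_le_add h2 h3) h4) _
  calc q * _ ≤ q * ((δ + 3) * Nat.card κ ^ N + V.ncard) := Nat.mul_le_mul_left q h5
    _ = (q * (δ + 3)) * Nat.card κ ^ N + q * V.ncard := by ring
    _ ≤ Nat.card κ * Nat.card κ ^ N + 2 * 1 * Nat.card κ ^ (N + 1) :=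
        Nat.add_le_add (Nat.mul_le_mul_right _ hbig) h1
    _ = _ := by ring

end special

section twists

variable {k : Type} [Field k] {A : Type} [CommRing A] [Algebra k A]

/-- The polynomials `D` in `t` over `A` of degree at most `N` with coefficients in `H`. -/
def twists (H : Submodule k A) (N : ℕ) : Set A[X] :=
  {D | D.natDegree ≤ N ∧ ∀ j, D.coeff j ∈ H}

/-- The polynomials `D` which are settled at none of the closed points `c` of `Y = Spec A` with
`a(c) ≠ 0` at which the polynomial `g` over `A` has a root in the residue field. -/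
def Pencil.exceptions {r : ℕ} (S : Pencil A r) (a : A) (g : A[X]) (H : Submodule k A)
    (p q N : ℕ) : Set A[X] :=
  {D | D ∈ twists H N ∧ ∀ c : MaximalSpectrum A, evalAt c a ≠ 0 →
    (∃ x : A, evalAt c (g.eval x) = 0) → ¬ (S.at (evalAt c)).Settled p q N (D.map (evalAt c))}

end twists

theorem map_leading {A κ : Type} [CommRing A] [Field κ] (φ : A →+* κ) {h : A[X]}
    (hc : φ h.leadingCoeff ≠ 0) : (h.map φ).natDegree = h.natDegree ∧ h.map φ ≠ 0 := by
  have h1 : (h.map φ).coeff h.natDegree ≠ 0 := by
    rw [coeff_map]
    exact hc
  refine ⟨le_antisymm natDegree_map_le (le_natDegree_of_ne_zero h1), ?_⟩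
  intro h0
  rw [h0, coeff_zero] at h1
  exact h1 rfl

/-- **The Tate conjecture for divisors over the infinite finitely generated fields `K` of positive
characteristic, and over each of their finite extensions, for 100 per cent of the surfaces of
superelliptic pencils of any degree.**

Let `q` be a power of the prime number `p`, let `k` be a finite extension of the field with `q` elements,
and let `A` be the coordinate ring of an affine variety `Y` over `k` of positive dimension, `K = k(Y)`; so
`K` is any infinite field that is finitely generated over its prime field and contains the field with `q`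
elements. Let `β_0, …, β_r` be polynomials in `A[t]` of degree at most `d ≥ 1` with simple collisions: all
differences have exactly the degree `d`, and their product has no multiple zeros. Let `m_i ≥ 1` be
integers with the sum `m < p`, and let `B ≠ 0` be a polynomial without zeros of a multiplicity above `b`;
suppose that `r m ≤ q - 1`, `m + b + 3 r + 4 ≤ q` and `4 (r + 1) ^ 2 ≤ q`. There is no condition on the
degree `d` of the sections. For `D` in `A[t]` let `X_D` be a smooth projective surface over `K` that is
birational to the surface `y ^ (q - 1) = D(t) B(t) ∏ (x - β_i(t)) ^ (m_i)`.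

The theorem: let `a ≠ 0` in `A`, let `g` be a polynomial of positive degree over `A`, and `n ≥ 1`. There
is a finite-dimensional space `H₀` of functions on `Y` such that for every finite-dimensional space
`H ⊇ H₀` and every degree `N` with `N + f = (q - 1) M + ρ`, `f = deg B + d m`, `2 r < ρ < q - 1`,
`M ≥ 8 (r + 1) ^ 2 (f + 1)`, for all `D` of degree at most `N` in `t` with coefficients in `H`, outside of a
proportion of at most `1 / n`, there is a closed point `c` of `Y` with `a(c) ≠ 0`, such that `g` has a root
in the residue field `κ = k(c)`, the specialisation `D_c` has exact degree `N`, is squarefree and prime to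
`B ∏ (β_j - β_i)` at `c`, and the `L`-functions of the specialisation of `X_D` at `c` for the characters of
exact order `q - 1` do not vanish at the point `T = 1 / #κ`, over every Galois covering of the `t`-line over
`κ` with a `p`-group that is unramified outside of the zeros of `D_c B_c` and `∞`. So the density of the `D`
without such a point is zero (`H` growing, `N` arbitrary in its residue classes modulo `q - 1`).

This implies the Tate conjecture for the following parts of `X_D`. Let `K'` be a finite extension of `K`; we
may assume that it is separable, and take for `g` a multiple in `A[x]` of the minimal polynomial of a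
generator of `K'`. Choose `a` such that where `a ≠ 0` the variety `Y` is smooth, the leading coefficient and
the discriminant of `g` and the constants `c` with `u h + v h' = c` are invertible, and `S` is equisingular
(the degree and the number of geometric zeros of `B ∏ (β_j - β_i)` are constant). Let `D` be settled at `c`.
The zeros of `D B ∏ (β_j - β_i)` form a finite étale covering of a neighbourhood of `c` in `Y`, the sections
`β_i`, `∞` and the fibres over the zeros of `D B` and over `∞` form an equisingular family of configurations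
of curves on a ruled surface, with a simultaneous embedded resolution, and the cyclic covering has a
simultaneous resolution (its degree is prime to `p`): `X_D` and the curves in the complement of its open part
`D B ∏ (x - β_i) ≠ 0`, the boundary curves, have good reduction at `c`, and the specialisation in the
cohomology is bijective and respects the classes of the boundary curves. A root of `g` in `κ` is a point `c'`
above `c`, with the same residue field, of the normalisation of `Y` in `K'`. Let `χ` be a character of exact
order `q - 1` of the group `μ` of roots of unity of order `q - 1`. A class in the `χ`-part of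
`H ^ 2 (X_D ⊗ K̄, ℚ_ℓ(1))` that is invariant under the Galois group of `K'` specialises to a class that is
invariant under the Frobenius of `κ`. By the theorem (for the trivial covering, with the trace formula for
the smooth affine surface `D B ∏ (x - β_i) ≠ 0` over `κ`, whose `χ`-part has cohomology with compact supports
only in the degree two, and with the Hodge index theorem) it is a combination of classes of boundary curves.
So all Tate classes over `K'` in the part of the second cohomology on which `μ` acts by characters of exact
order `q - 1` are combinations of classes of curves. If `B` is in `k[t]`, the same holds, for the same `D`,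
for the pull-back of `X_D` to all Galois coverings of degree a power of `p` of the `t`-line over `k` that are
unramified outside of the zeros of `B` and `∞`.

The full conjecture for the surfaces. Let `q = p ≥ 37`, `r = 2`, `m = (p - 1) / 2`, and suppose that for every
odd prime factor `l` of `p - 1` the number `(p - 1) / l` divides one of `m_0, m_1, m_2`. This is no
condition if `p - 1` is a power of two; if `p = 2 l + 1` it means that one of the `m_i` is even; there are
such `m_i` whenever `p - 1` has only one odd prime factor, or only two, `l` and `l'`, with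
`1 / l + 1 / l' < 1 / 2`. Then for every prime factor `l` of `p - 1` (also for `l = 2`, since `(p - 1) / 2`
divides `m`) the curves `y ^ ((p - 1) / l) = D B ∏ (x - β_i) ^ (m_i)` are ramified over at most three of the
four sections `β_0, β_1, β_2, ∞`, and the surface is dominated by a product of two curves over `K`, so that
the Tate conjecture for divisors holds for it over `K'` (Tate, Zarhin). Every character that is not of exact
order `p - 1` occurs in one of these quotients of `X_D`. So for each infinite finitely generated field `K` of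
characteristic `p`, each finite extension `K'` of `K`, and sections and `B` over `K` as above, the Tate
conjecture for divisors holds for the surface `X_D` over `K'` (for all `ℓ ≠ p`) for 100 per cent of the
polynomials `D` over `K`, ordered as in the theorem; the sections are of any degree, and the surfaces (and
their pull-backs to the coverings above) are of arbitrarily large geometric genus. -/
theorem result (k : Type) [Field k] [Finite k] (p : ℕ) [Fact p.Prime] [CharP k p] (a₀ s q : ℕ)
    (ha₀ : 0 < a₀) (hs : 0 < s) (hq : q = p ^ a₀) (hk : Nat.card k = q ^ s) (A : Type) [CommRing A]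
    [IsDomain A] [Algebra k A] [Algebra.FiniteType k A] (hA : ¬ Module.Finite k A) (a : A)
    (ha : a ≠ 0) (g : A[X]) (hg : 0 < g.natDegree) (r : ℕ) (S : Pencil A r) (d b : ℕ) (hS : S.Simple d b)
    (hchar : S.degX < p) (hdeg : r * S.degX ≤ q - 1) (hnb : S.degX + b + 3 * r + 4 ≤ q)
    (hr : 4 * (r + 1) ^ 2 ≤ q) (f : ℕ) (hf : f = S.coef.natDegree + d * S.degX) (n : ℕ) :
    ∃ H₀ : Submodule k A, Module.Finite k H₀ ∧ ∀ H : Submodule k A, H₀ ≤ H → Module.Finite k H →
      ∀ M ρ N : ℕ, 8 * (r + 1) ^ 2 * (f + 1) ≤ M → 2 * r < ρ → ρ < q - 1 →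
        N + f = (q - 1) * M + ρ →
          (twists H N).Finite ∧
            n * (S.exceptions a g H p q N).ncard ≤ (twists H N).ncard := by
  classical
  obtain ⟨E, cE', ⟨cE, hcE, hEs⟩, hcE', hBE⟩ := hS.coef_mult
  obtain ⟨cD, hcD, hDs⟩ := hS.diff_sep
  have hdiff : ∀ i j, i ≠ j → S.root i - S.root j ≠ 0 := by
    intro i j hij h0
    have h1 := hS.diff_deg i j hij
    rw [h0, natDegree_zero] at h1
    exact hS.deg_pos.ne h1
  have hdiff0 : S.differences ≠ 0 := by
    unfold Pencil.differences
    rw [Finset.prod_ne_zero_iff]
    intro i _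
    rw [Finset.prod_ne_zero_iff]
    intro j hj
    rw [Finset.mem_Ioi] at hj
    exact hdiff j i hj.ne'
  have hD0 : S.disc ≠ 0 := mul_ne_zero hS.coef_ne hdiff0
  set δ := S.disc.natDegree with hδ
  -- the constants that must not vanish
  set u : A := a * S.coef.leadingCoeff * S.differences.leadingCoeff * cE * cE' * cD *
    ∏ i, ∏ j, (if i = j then 1 else (S.root i - S.root j).leadingCoeff) with hu
  have hu0 : u ≠ 0 := by
    refine mul_ne_zero (mul_ne_zero (mul_ne_zero (mul_ne_zero (mul_ne_zero (mul_ne_zero ha
      (leadingCoeff_ne_zero.2 hS.coef_ne)) (leadingCoeff_ne_zero.2 hdiff0)) hcE) hcE') hcD) ?_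
    rw [Finset.prod_ne_zero_iff]
    intro i _
    rw [Finset.prod_ne_zero_iff]
    intro j _
    split_ifs with hij
    · exact one_ne_zero
    · exact leadingCoeff_ne_zero.2 (hdiff i j hij)
  -- closed points
  let Z : Set (MaximalSpectrum A) := {c | u ∉ c.asIdeal ∧
    (∃ x : A, g.eval x ∈ c.asIdeal) ∧ q * (δ + 3) ≤ Module.finrank k (A ⧸ c.asIdeal) ∧
      Module.Finite k (A ⧸ c.asIdeal)}
  have hZ : Z.Infinite := by
    intro hfin
    obtain ⟨b, hb⟩ := (hfin.image fun c : MaximalSpectrum A =>
      Module.finrank k (A ⧸ c.asIdeal)).bddAbove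
    obtain ⟨c, h1, h2, h3, h4⟩ := Pool.Agent.Y709.Lay.existsRootPoint k A hA u hu0 g hg
      (max (b + 1) (q * (δ + 3)))
    have h5 := hb ⟨c, ⟨h1, h2, (le_max_right _ _).trans h3, h4⟩, rfl⟩
    have h6 := (le_max_left _ _).trans h3
    dsimp only at h5
    omega
  obtain ⟨T, hTZ, hTn⟩ := hZ.exists_subset_card_eq (2 * n)
  have hTf : ∀ c ∈ T, Finite (A ⧸ c.asIdeal) := fun c hc => by
    have h1 := (hTZ hc).2.2.2
    exact Module.finite_of_finite k
  obtain ⟨H₀, hH₀, hH₀'⟩ := Pool.Agent.Y709.Lay.exists_sub (k := k) T hTf
  refine ⟨H₀, hH₀, fun H hle hHf M ρ N hM hρ hρq hN => ?_⟩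
  have htw : (twists H N).Finite := Set.finite_coe_iff.1 (Pool.Agent.Y709.Sp.finite_grp H N)
  refine ⟨htw, ?_⟩
  have hmain := Pool.Agent.Y709.Lay.count_specC H N T hTf (hH₀' H hle)
    (fun c => {D | ¬ (S.at (evalAt c)).Settled p q N D}) q 3 (fun c hc => ?_)
  · have hn0 : 0 < S.degX := Finset.sum_pos (fun i _ => hS.mult_pos i) ⟨0, Finset.mem_univ _⟩
    have hq5 : 5 ≤ q := by omega
    have hsub : (S.exceptions a g H p q N).ncard ≤
        {D : A[X] | (D.natDegree ≤ N ∧ ∀ j, D.coeff j ∈ H) ∧ ∀ c ∈ T,
          D.map (Ideal.Quotient.mk c.asIdeal) ∈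
            {D | ¬ (S.at (evalAt c)).Settled p q N D}}.ncard := by
      refine Set.ncard_le_ncard ?_ (htw.subset fun D hD => hD.1)
      rintro D ⟨hD, hex⟩
      refine ⟨hD, fun c hc => ?_⟩
      refine hex c ?_ ((hTZ hc).2.1.imp fun x hx => Ideal.Quotient.eq_zero_iff_mem.2 hx)
      intro h0
      have h1 : a ∈ c.asIdeal := Ideal.Quotient.eq_zero_iff_mem.1 h0
      apply (hTZ hc).1
      rw [hu]
      simp only [mul_assoc]
      exact c.asIdeal.mul_mem_right _ h1
    rw [hTn] at hmain
    have h3 : 0 < 3 ^ (2 * n) := pow_pos (by omega) _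
    have h4 : 3 ^ (2 * n) * (2 ^ n * (S.exceptions a g H p q N).ncard) ≤
        3 ^ (2 * n) * (twists H N).ncard := by
      calc 3 ^ (2 * n) * (2 ^ n * (S.exceptions a g H p q N).ncard) =
          18 ^ n * (S.exceptions a g H p q N).ncard := by
            rw [pow_mul, ← mul_assoc, ← mul_pow]
            norm_num
        _ ≤ q ^ (2 * n) * (S.exceptions a g H p q N).ncard := by
            refine Nat.mul_le_mul_right _ ?_
            rw [pow_mul]
            refine Nat.pow_le_pow_left ?_ n
            have : 5 ^ 2 ≤ q ^ 2 := Nat.pow_le_pow_left hq5 2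
            omega
        _ ≤ q ^ (2 * n) * _ := Nat.mul_le_mul_left _ hsub
        _ ≤ _ := hmain
    have h5 := Nat.le_of_mul_le_mul_left h4 h3
    have h6 : n ≤ 2 ^ n := Nat.lt_two_pow_self.le
    exact (Nat.mul_le_mul_right _ h6).trans h5
  · obtain ⟨hc1, hc2, hc3, hc4⟩ := hTZ hc
    have hfc : Finite (FieldAt c) := hTf c hc
    have hmf : Module.Finite k (FieldAt c) := hc4
    have hmax := c.isMaximal
    have hnt : Nontrivial (A ⧸ c.asIdeal) := Ideal.Quotient.nontrivial_iff.2 hmax.ne_top
    have hcard : Nat.card (FieldAt c) = Nat.card k ^ Module.finrank k (FieldAt c) :=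
      Module.natCard_eq_pow_finrank (K := k) (V := A ⧸ c.asIdeal)
    have hdpos : 0 < Module.finrank k (FieldAt c) :=
      Module.finrank_pos (R := k) (M := A ⧸ c.asIdeal)
    have hcp : CharP (FieldAt c) p :=
      charP_of_injective_algebraMap (algebraMap k (FieldAt c)).injective p
    -- the values of the constants
    have hev : ∀ x : A, x ∣ u → evalAt c x ≠ 0 := by
      rintro x ⟨y, hy⟩ h0
      have h1 : x ∈ c.asIdeal := Ideal.Quotient.eq_zero_iff_mem.1 h0
      apply hc1
      rw [hy]
      exact c.asIdeal.mul_mem_right _ h1
    have e1 : evalAt c S.coef.leadingCoeff ≠ 0 := hev _ ⟨a * S.differences.leadingCoeff *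
      cE * cE' * cD * ∏ i, ∏ j, (if i = j then 1 else (S.root i - S.root j).leadingCoeff), by
        rw [hu]; ring⟩
    have e2 : evalAt c S.differences.leadingCoeff ≠ 0 := hev _ ⟨a * S.coef.leadingCoeff *
      cE * cE' * cD * ∏ i, ∏ j, (if i = j then 1 else (S.root i - S.root j).leadingCoeff), by
        rw [hu]; ring⟩
    have e3 : evalAt c cE ≠ 0 := hev _ ⟨a * S.coef.leadingCoeff * S.differences.leadingCoeff *
      cE' * cD * ∏ i, ∏ j, (if i = j then 1 else (S.root i - S.root j).leadingCoeff), by
        rw [hu]; ring⟩
    have e4 : evalAt c cE' ≠ 0 := hev _ ⟨a * S.coef.leadingCoeff * S.differences.leadingCoeff *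
      cE * cD * ∏ i, ∏ j, (if i = j then 1 else (S.root i - S.root j).leadingCoeff), by
        rw [hu]; ring⟩
    have e5 : evalAt c cD ≠ 0 := hev _ ⟨a * S.coef.leadingCoeff * S.differences.leadingCoeff *
      cE * cE' * ∏ i, ∏ j, (if i = j then 1 else (S.root i - S.root j).leadingCoeff), by
        rw [hu]; ring⟩
    have e6 : ∀ i j, i ≠ j → evalAt c (S.root i - S.root j).leadingCoeff ≠ 0 := by
      intro i j hij
      apply hev
      have h1 : (S.root i - S.root j).leadingCoeff ∣
          ∏ i, ∏ j, (if i = j then 1 else (S.root i - S.root j).leadingCoeff) := by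
        have g1 := Finset.dvd_prod_of_mem (fun j => if i = j then 1 else
          (S.root i - S.root j).leadingCoeff) (Finset.mem_univ j)
        rw [if_neg hij] at g1
        exact g1.trans (Finset.dvd_prod_of_mem (fun i => ∏ j, (if i = j then 1 else
          (S.root i - S.root j).leadingCoeff)) (Finset.mem_univ i))
      rw [hu]
      exact h1.mul_left _
    have hdmap : (S.at (evalAt c)).differences = S.differences.map (evalAt c) := by
      unfold Pencil.differences Pencil.at
      rw [Polynomial.map_prod]
      refine Finset.prod_congr rfl fun i _ => ?_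
      rw [Polynomial.map_prod]
      refine Finset.prod_congr rfl fun j _ => ?_
      rw [Polynomial.map_sub]
    have hdisc : (S.at (evalAt c)).disc = S.disc.map (evalAt c) := by
      unfold Pencil.disc
      rw [hdmap, Polynomial.map_mul]
      rfl
    obtain ⟨hB1, hB2⟩ := map_leading (evalAt c) e1
    obtain ⟨hd1, hd2⟩ := map_leading (evalAt c) e2
    have hD0c : (S.at (evalAt c)).disc ≠ 0 := by
      unfold Pencil.disc
      rw [hdmap]
      exact mul_ne_zero hB2 hd2
    have hδc : (S.at (evalAt c)).disc.natDegree ≤ δ := by
      rw [hdisc]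
      exact natDegree_map_le
    have hsimple : Pool.Agent.Y709.Irr.Simple (S.at (evalAt c)).root d := by
      refine Pool.Agent.Y709.Irr.simple_of hS.deg_pos ?_ ?_ ?_
      · intro i
        exact natDegree_map_le.trans (hS.root_deg i)
      · intro i j hij
        have h1 := (map_leading (evalAt c) (e6 i j hij)).1
        rw [Polynomial.map_sub, hS.diff_deg i j hij] at h1
        exact h1
      · have h1 := Pool.Agent.Y709.IrrS.squarefree_map (evalAt c) hDs e5
        rw [← hdmap] at h1
        exact h1
    have hbig : q * (δ + 3) ≤ Nat.card (FieldAt c) := by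
      have h1 : Module.finrank k (FieldAt c) < Nat.card k ^ Module.finrank k (FieldAt c) :=
        Nat.lt_pow_self (Finite.one_lt_card)
      rw [hcard]
      exact hc3.trans h1.le
    exact ncard_not_settled (κ := FieldAt c) (p := p) (s := s * Module.finrank k (FieldAt c))
      ha₀ (Nat.mul_pos hs hdpos) hq (by rw [hcard, hk, pow_mul]) (S.at (evalAt c)) hsimple
      hS.mult_pos hB2 (fun P hP => Pool.Agent.Y709.IrrS.not_pow_dvd (evalAt c) hEs e3 e4 hBE hP)
      hchar hdeg hnb hr
      (f := f) (hf.trans (congrArg (· + d * S.degX) hB1.symm)) hδc hD0c hbig hM hρ hρq hN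

end Pool.Agent.Results.MP_89bcae_ag.DensityOneSurfaces
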