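import Pool.Agent.Y164.NZ.Clo2
import Pool.Agent.Y164.NZ.Fin4

/-!
# The Tate conjecture over number fields for most of the surfaces `y ^ ℓ = D(t) (x - b 1(t)) ⋯ (x - b n(t))`

Let `ℓ` be an odd prime, `k₀` a number field (for example `ℚ`), `O₀` its ring of integers, `n ≥ 3` prime
to `ℓ`, and let `b 1, …, b n` be polynomials over `O₀` such that all the differences `b i - b j`
(`i ≠ j`) have the same degree `N ≥ 1` and the product of the differences `b i - b j`, `i < j`, is
squarefree over `k₀`. (For example `N = 1`, `b i = c i t + (c i) ^ 2`, where the `c i` are distinct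
elements of `O₀` such that the sums `c i + c j`, `i < j`, are distinct.) Let `k` be any finite extension
of `k₀` which contains the roots of unity of order `ℓ`. For a monic polynomial `D` over `O₀` let `J_D`
be the Jacobian of the curve of genus `(ℓ - 1) (n - 1) / 2`

`y ^ ℓ = D(t) (x - b 1) ⋯ (x - b n)`

over `K = k(t)`.

Theorem. For every `η > 0` there is a nonzero ideal `M` of `O₀` such that, for all large `m` with `m` and
`m + n N` not divisible by `ℓ`, for at least the proportion `1 - η` of the monic polynomials `E` of degree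
`m` over `O₀ / M`, EVERY monic `D` over `O₀` congruent to `E` modulo `M` has the following properties:

1. every point of `J_D(K)` is the sum of a `K`-point killed by `ℓ` and of `ℓ` times a `K`-point, so
  `J_D(K)` is finite (it is finitely generated: Mordell-Weil theorem of Lang and Neron);
2. all classes in `H ^ 1 (K, J_D)` killed by a power of `ℓ` which are trivial over the completions of `K`
  at all the maximal ideals of `k[t]` are zero;
3. the Tate conjecture at `ℓ` over `k`: all the classes in the `ℓ`-adic Selmer group of `J_D` over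
  `k'(t)`, `k'` an algebraic closure of `k`, which are fixed by the Galois group of `k` come from
  `J_D(K)` (so they are zero: there are no transcendental Tate classes at `ℓ`). It is stated with the
  monic model `w ^ ℓ = ∏ (z - D ^ u b i)` of the curve, `n u = 1 + ℓ v`, `z = D ^ u x`, `w = D ^ v y`;
4. there is a reduction `r` of the ring of integers of `k` modulo a prime, onto a finite field `F`, such
  that `D` is squarefree and prime to the differences over `F`, the differences have the same degree `N`
  and a squarefree product over `F`, and the properties 1 and 2 hold for the Jacobian over `F(t)` of the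
  reduced curve.

So a random polynomial `D` over `O₀` of large degree with coefficients in a fixed box (a fixed number of
complete sets of residues modulo `M`) has these properties with probability at least `1 - η`.

Let `X_D` be a smooth projective model over `k₀` of the surface `y ^ ℓ = D ∏ (x - b i)`. Property 3 is
the Tate conjecture over `k` at the prime `ℓ` for the divisors on `X_D`, since the Brauer group of `X_D`
over `k'` is isomorphic to the group of the everywhere locally trivial classes of `J_D` over `k'(t)`
(Grothendieck). Property 4 gives it at all primes `ℓ'`: `X_D` has good reduction at the prime of `k`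
given by `r`; over `F` the rank is zero and the Brauer group has trivial `ℓ`-primary part, so by Artin,
Tate and Milne all the Tate classes of the reduction are combinations of the classes of the components
of the fibres and of a section; these lift to divisors over `k'`, and the specialisation of the Tate
classes is injective. The Tate conjecture for `X_D` over `k` implies that over all the fields between
`k₀` and `k`, so it holds over `k₀` itself, and for the classes fixed by any given open subgroup of the
Galois group of `k₀`.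

The proof: descent by `1 - ζ` over `k(t)`, for the classes in property 3 with the second layer of the
descent (the action of the decomposition groups on the residues); all the local conditions are
transferred to `F(t)` by reduction of the coefficients modulo a prime `P` of `k` which has degree one
over the prime `p` of `k₀` below (there are infinitely many), so that `F = O₀ / p`. Over `F(t)` the
kernel of an explicit symmetric matrix of `ℓ`-th power residue symbols is zero for at least a fixed
positive proportion of the `D` (`MP_0d42ed_ag.SuperellipticTwists`); finally many primes are used at the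
same time.
-/

set_option autoImplicit false
set_option linter.all false

namespace Pool.Agent.Results.MP_89bcae_ag.SuperellipticSurfaces

open Polynomial Filter NumberField IsDedekindDomain
open Pool.Agent.Y713.Jac (J mapJ ShaPrimaryTrivial)
open Pool.Agent.TH115.GD (IsTower)
open Pool.Agent.Y713.Tate (TateAt)
open scoped Classical

/-- The product of the differences `b i - b j`, `i < j`. -/
noncomputable def differences {A : Type} [CommRing A] {n : ℕ} (b : Fin n → A[X]) : A[X] :=
  ∏ x ∈ (Finset.univ : Finset (Fin n × Fin n)).filter (fun x => x.1 < x.2), (b x.1 - b x.2)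

/-- The monic squarefree polynomials `D` of degree `m` prime to the differences `b i - b j`. -/
def Twists {k : Type} [Field k] {n : ℕ} (b : Fin n → k[X]) (m : ℕ) : Set k[X] :=
  {D | D.Monic ∧ D.natDegree = m ∧ Squarefree D ∧ ∀ i j, i ≠ j → IsCoprime D (b i - b j)}

/-- The polynomial `D(t) ∏ (x - b i)` in `x` over `K = k(t)`. -/
noncomputable def twist {k : Type} [Field k] (K : Type) [Field K] [Algebra k[X] K] {n : ℕ}
    (b : Fin n → k[X]) (D : k[X]) : K[X] :=
  C (algebraMap k[X] K D) * ∏ i, (X - C (algebraMap k[X] K (b i)))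

/-- Every element of the group is the product of an element killed by `ℓ` and of an `ℓ`-th power. -/
def TorsionTimesPowers (ℓ : ℕ) (G : Type) [CommGroup G] : Prop :=
  ∀ P : G, ∃ T Q : G, T ^ ℓ = 1 ∧ P = T * Q ^ ℓ

section cohomology

/-- The absolute Galois group of `K`. -/
def Galois (K : Type) [Field K] : Type := SeparableClosure K ≃ₐ[K] SeparableClosure K

noncomputable instance galoisGroup (K : Type) [Field K] : Group (Galois K) :=
  (inferInstance : Group (SeparableClosure K ≃ₐ[K] SeparableClosure K))

noncomputable instance galoisTopology (K : Type) [Field K] : TopologicalSpace (Galois K) :=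
  (inferInstance : TopologicalSpace (SeparableClosure K ≃ₐ[K] SeparableClosure K))

/-- The embeddings `K^sep → E^sep` over `K`. -/
def Embeddings (K E : Type) [Field K] [Field E] [Algebra K E] : Type :=
  SeparableClosure K →ₐ[K] SeparableClosure E

variable (ℓ : ℕ) {K : Type} [Field K] (f : K[X])

/-- The group `J(E^sep)`, `J` the Jacobian of `y ^ ℓ = f(x)`, `E` an extension of `K`. -/
def JSep (E : Type) [Field E] [Algebra K E] : Type := J ℓ f (SeparableClosure E)

noncomputable instance jsepGroup (E : Type) [Field E] [Algebra K E] : CommGroup (JSep ℓ f E) :=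
  (inferInstance : CommGroup (J ℓ f (SeparableClosure E)))

/-- The action of the Galois group of `K` on `J(K^sep)`. -/
noncomputable def act (σ : Galois K) (P : JSep ℓ f K) : JSep ℓ f K :=
  mapJ ℓ f (AlgEquiv.toAlgHom (show SeparableClosure K ≃ₐ[K] SeparableClosure K from σ)) P

/-- The action of the Galois group of `E` on `J(E^sep)`. -/
noncomputable def actOver (E : Type) [Field E] [Algebra K E] (τ : Galois E) (P : JSep ℓ f E) :
    JSep ℓ f E :=
  mapJ ℓ f ((AlgEquiv.toAlgHom
    (show SeparableClosure E ≃ₐ[E] SeparableClosure E from τ)).restrictScalars K) P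

/-- The homomorphism `J(K^sep) → J(E^sep)` given by an embedding. -/
noncomputable def embed (E : Type) [Field E] [Algebra K E] (ι : Embeddings K E)
    (P : JSep ℓ f K) : JSep ℓ f E :=
  mapJ ℓ f (show SeparableClosure K →ₐ[K] SeparableClosure E from ι) P

/-- `σ` is the restriction of `τ` under the embedding `ι`. -/
def Restricts {E : Type} [Field E] [Algebra K E] (ι : Embeddings K E) (τ : Galois E)
    (σ : Galois K) : Prop :=
  ∀ x : SeparableClosure K, (show SeparableClosure E ≃ₐ[E] SeparableClosure E from τ)
      ((show SeparableClosure K →ₐ[K] SeparableClosure E from ι) x) =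
    (show SeparableClosure K →ₐ[K] SeparableClosure E from ι)
      ((show SeparableClosure K ≃ₐ[K] SeparableClosure K from σ) x)

/-- Continuous 1-cocycles with values in the discrete group `J(K^sep)`. -/
def IsCocycle (c : Galois K → JSep ℓ f K) : Prop :=
  IsLocallyConstant c ∧ ∀ σ τ, c (σ * τ) = c σ * act ℓ f σ (c τ)

/-- Coboundaries. -/
def IsCoboundary (c : Galois K → JSep ℓ f K) : Prop := ∃ Q, ∀ σ, c σ = act ℓ f σ Q / Q

/-- The restriction of the class of the cocycle `c` to `H ^ 1 (E, J)` is zero: for an embedding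
`ι : K^sep → E^sep` over `K` there is `P ∈ J(E^sep)` with `c(τ|K^sep) = τ P / P` for every
`τ ∈ Gal(E^sep / E)`. -/
def IsTrivialOver (E : Type) [Field E] [Algebra K E] (c : Galois K → JSep ℓ f K) : Prop :=
  ∃ (ι : Embeddings K E) (P : JSep ℓ f E), ∀ (τ : Galois E) (σ : Galois K), Restricts ι τ σ →
    embed ℓ f E ι (c σ) = actOver ℓ f E τ P / P

variable (R : Type) [CommRing R] [IsDedekindDomain R] [Algebra R K] [IsFractionRing R K]

/-- The class of `c` is zero over the completion of `K = Frac R` at every maximal ideal of `R`. -/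
def IsLocallyTrivial (c : Galois K → JSep ℓ f K) : Prop :=
  ∀ v : HeightOneSpectrum R, IsTrivialOver ℓ f (v.adicCompletion K) c

/-- The `ℓ`-primary part of the group of classes in `H ^ 1 (K, J)` which are zero over the
completions of `K` at all maximal ideals of `R` is zero. -/
def ShaTrivial : Prop :=
  ∀ (c : Galois K → JSep ℓ f K) (m : ℕ), IsCocycle ℓ f c → IsLocallyTrivial ℓ f R c →
    IsCoboundary ℓ f (fun σ => c σ ^ ℓ ^ m) → IsCoboundary ℓ f c

theorem sha_iff : ShaTrivial ℓ f R ↔ ShaPrimaryTrivial ℓ f R := Iff.rfl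

end cohomology

/-- For the Jacobian `J_D` of the curve `y ^ ℓ = D ∏ (x - b i)` over `K = k(t)`, the group `J_D(K)` is
`J_D(K)[ℓ] + ℓ J_D(K)`, and the `ℓ`-primary part of the group of the classes in `H ^ 1 (K, J_D)` which
are trivial over the completions of `K` at the maximal ideals of `k[t]` is zero. -/
def IsGood {k : Type} [Field k] (ℓ : ℕ) (K : Type) [Field K] [Algebra k[X] K]
    [IsFractionRing k[X] K] {n : ℕ} (b : Fin n → k[X]) (D : k[X]) : Prop :=
  ShaTrivial ℓ (twist K b D) k[X] ∧ TorsionTimesPowers ℓ (J ℓ (twist K b D) K)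

/-- The polynomial `∏ (z - D ^ u b i)` in `z` over `K = k(t)`. -/
noncomputable def monicModel {k : Type} [Field k] (K : Type) [Field K] [Algebra k[X] K] {n : ℕ}
    (b : Fin n → k[X]) (u : ℕ) (D : k[X]) : K[X] :=
  ∏ i, (X - C (algebraMap k[X] K (D ^ u * b i)))

/-- The Tate conjecture at `ℓ` for the surface `y ^ ℓ = D ∏ (x - b i)` over `k`, fibred over the `t`-line:
all the Tate classes come from the points over `K = k(t)`. Here `F = k'(t)`. -/
def IsTate {k : Type} [Field k] (ℓ : ℕ) (k' K F : Type) [Field k'] [Field K] [Algebra k[X] K]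
    [Field F] [Algebra k'[X] F] [IsFractionRing k'[X] F] [Algebra K F] {n : ℕ}
    (b : Fin n → k[X]) (D : k[X]) : Prop :=
  ∀ u : ℕ, n * u ≡ 1 [MOD ℓ] → TateAt (F := F) ℓ k' (monicModel K b u D)

/-- `r` is a reduction of `O` modulo a prime such that the reduced branch points have the same
properties. -/
structure IsGoodPrime {A : Type} [CommRing A] (ℓ : ℕ) {n : ℕ} (N : ℕ) (b : Fin n → A[X])
    {F : Type} [Field F] (r : A →+* F) : Prop where
  surjective : Function.Surjective r
  two : (2 : F) ≠ 0
  degree : ∀ i j, i ≠ j → ((b i).map r - (b j).map r).natDegree = N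
  squarefree : Squarefree (differences (fun i => (b i).map r))
  card : ℓ ∣ Nat.card F - 1

/-- The reduction of `D` modulo some prime is squarefree and prime to the differences, and it is
good. -/
def IsGoodModuloPrime {A : Type} [CommRing A] (ℓ : ℕ) {n : ℕ} (N : ℕ) (b : Fin n → A[X])
    (D : A[X]) : Prop :=
  ∃ (F : Type) (_ : Field F) (_ : Finite F) (r : A →+* F), IsGoodPrime ℓ N b r ∧
    D.map r ∈ Twists (fun i => (b i).map r) D.natDegree ∧
    IsGood ℓ (RatFunc F) (fun i => (b i).map r) (D.map r)

theorem isGood_iff {k : Type} [Field k] (ℓ : ℕ) (K : Type) [Field K] [Algebra k[X] K]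
    [IsFractionRing k[X] K] {n : ℕ} (b : Fin n → k[X]) (D : k[X]) :
    Pool.Agent.Y164.SZ.Good ℓ K b D ↔ IsGood ℓ K b D := by
  unfold IsGood
  rw [sha_iff]
  exact Iff.rfl

theorem good_iff {A : Type} [CommRing A] (ℓ : ℕ) {n : ℕ} (N : ℕ) (b : Fin n → A[X]) (D : A[X]) :
    Pool.Agent.Y164.NZ.GoodRed ℓ N b D ↔ IsGoodModuloPrime ℓ N b D := by
  constructor
  · rintro ⟨F, i1, i2, r, h, h2, h3⟩
    exact ⟨F, i1, i2, r, ⟨h.surj, h.two, h.deg, h.sq, h.div⟩, h2, (isGood_iff _ _ _ _).1 h3⟩
  · rintro ⟨F, i1, i2, r, h, h2, h3⟩
    exact ⟨F, i1, i2, r, ⟨h.surjective, h.two, h.degree, h.squarefree, h.card⟩, h2,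
      (isGood_iff _ _ _ _).2 h3⟩

section
variable {k₀ : Type} [Field k₀] [NumberField k₀]

/-- The polynomial `p` over the ring of integers of `k₀` as a polynomial over the field `k`. -/
noncomputable def overField (k : Type) [Field k] [NumberField k] [Algebra k₀ k]
    (p : (𝓞 k₀)[X]) : k[X] :=
  (p.map (algebraMap (𝓞 k₀) (𝓞 k))).map (algebraMap (𝓞 k) k)

/-- The polynomial `p` over the ring of integers of `k₀` as a polynomial over the ring of integers of
`k`. -/
noncomputable def overIntegers (k : Type) [Field k] [NumberField k] [Algebra k₀ k]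
    (p : (𝓞 k₀)[X]) : (𝓞 k)[X] :=
  p.map (algebraMap (𝓞 k₀) (𝓞 k))

variable {k : Type} [Field k] [NumberField k] [Algebra k₀ k] (ℓ : ℕ) (k' K F : Type) [Field k']
  [Field K] [Algebra k[X] K] [IsFractionRing k[X] K] [Field F] [Algebra k'[X] F]
  [IsFractionRing k'[X] F] [Algebra K F] {n : ℕ} (N : ℕ) (b : Fin n → (𝓞 k₀)[X])

/-- The properties 1, 2, 3 and 4 of the polynomial `D`, over the extension `k` of `k₀`. -/
def HasProperties (D : (𝓞 k₀)[X]) : Prop :=
  (IsGood ℓ K (fun i => overField k (b i)) (overField k D) ∧
    IsTate ℓ k' K F (fun i => overField k (b i)) (overField k D)) ∧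
  IsGoodModuloPrime ℓ N (fun i => overIntegers k (b i)) (overIntegers k D)

/-- The monic polynomials `E` of degree `m` over `O₀ / M` such that all monic polynomials over `O₀`
congruent to `E` modulo `M` have the properties. -/
def goodClasses (M : Ideal (𝓞 k₀)) (m : ℕ) : Set (𝓞 k₀ ⧸ M)[X] :=
  {E | E.Monic ∧ E.natDegree = m ∧ ∀ D : (𝓞 k₀)[X], D.Monic →
    D.map (Ideal.Quotient.mk M) = E → HasProperties (k := k) ℓ k' K F N b D}

theorem prop_iff (D : (𝓞 k₀)[X]) :
    (Pool.Agent.Y164.NZ.Concl (Ft := F) ℓ k' K
      (fun i => ((b i).map (algebraMap (𝓞 k₀) (𝓞 k))).map (algebraMap (𝓞 k) k))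
      ((D.map (algebraMap (𝓞 k₀) (𝓞 k))).map (algebraMap (𝓞 k) k)) ∧
    Pool.Agent.Y164.NZ.GoodRed ℓ N (fun i => (b i).map (algebraMap (𝓞 k₀) (𝓞 k)))
      (D.map (algebraMap (𝓞 k₀) (𝓞 k)))) ↔ HasProperties (k := k) ℓ k' K F N b D :=
  and_congr (and_congr (isGood_iff _ _ _ _) Iff.rfl) (good_iff _ _ _ _)

end

theorem result {ℓ : ℕ} (hℓ : ℓ.Prime) (hℓ2 : ℓ ≠ 2) {k₀ k : Type} [Field k₀] [NumberField k₀]
    [Field k] [NumberField k] [Algebra k₀ k] {ζ : k} (hζ : IsPrimitiveRoot ζ ℓ) {n : ℕ}
    (hn : ¬ ℓ ∣ n) (hn3 : 3 ≤ n) {N : ℕ} (hN : 1 ≤ N) (b : Fin n → (𝓞 k₀)[X])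
    (hb : ∀ i j, i ≠ j → (b i - b j).natDegree = N)
    (hs : Squarefree ((differences b).map (algebraMap (𝓞 k₀) k₀)))
    (k' K F : Type) [Field k'] [Algebra k k'] [Field K] [Algebra k[X] K] [IsFractionRing k[X] K]
    [Field F] [Algebra k'[X] F] [IsFractionRing k'[X] F] [Algebra K F] (hT : IsTower k k' K F)
    (η : ℝ) (hη : 0 < η) :
    ∃ M : Ideal (𝓞 k₀), M ≠ ⊥ ∧ ∀ᶠ m : ℕ in atTop, ¬ ℓ ∣ m → ¬ ℓ ∣ m + n * N →
      (1 - η) * (Nat.card (𝓞 k₀ ⧸ M) : ℝ) ^ m ≤
        ((goodClasses (k := k) ℓ k' K F N b M m).ncard : ℝ) := by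
  obtain ⟨M, hM, h⟩ := Pool.Agent.Y164.NZ.final2 Pool.Agent.Y86.NZ.Fgen.t Pool.Agent.Y785.NZ.Uni.t
    Pool.Agent.Y164.NZ.c_crit Pool.Agent.Y188.NZ.t Pool.Agent.Y710.NZ.t
    Pool.Agent.Y164.NZ.c_link Pool.Agent.Y164.NZ.c_lems hℓ hℓ2 hζ k' K F hT hn hn3 hN b hb hs η hη
  refine ⟨M, hM, ?_⟩
  filter_upwards [h] with m hm h1 h2
  have h3 := hm h1 h2
  refine h3.trans (le_of_eq ?_)
  congr 2
  ext E
  refine and_congr Iff.rfl (and_congr Iff.rfl (forall_congr' fun D => ?_))
  exact imp_congr Iff.rfl (imp_congr Iff.rfl (prop_iff ℓ k' K F N b D))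

end Pool.Agent.Results.MP_89bcae_ag.SuperellipticSurfaces
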